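import Pool.Agent.K9h98.HLp.Step
import Pool.Agent.K9h98.HLp.Core
import Pool.Agent.K9h98.HLp.Tail
import Pool.Agent.K9h98.HLp.Dense
import Pool.Agent.K9h98.HLp.Near
import Pool.Agent.K9h98.HLp.Harn
import Pool.Agent.K9h98.HLp.Fub
import Pool.Agent.K9h98.HLp.Cake
import Pool.Agent.K9h98.HLp.Avg
import Pool.Agent.K9h98.HLp.Bdd
import Pool.Agent.K9h98.HLp.Small
import Pool.Agent.K9h98.HLp.TC
import Pool.Agent.K9h98.HLp.Chain
import Pool.Agent.K9h98.HLp.Ind
import Pool.Agent.K9h98.HLp.Fin
import Pool.Agent.K9h98.HLp.Seq

set_option autoImplicit false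

/-!
# MP_5bfbcb, Q2: the logarithm of a half-lacunary Fourier series lies in some `L^p`

Let `n k` be negative integers with `liminf n (k + 1) / n k > 1` (the lower limit is taken in the
extended reals, so ratios tending to infinity are allowed).  Then there is an exponent `p > 0`,
which depends only on the sequence `n`, such that for every `a : ℤ → ℂ` and every
`g = ∑ a (n k) e (n k) + ∑_{j ≥ 0} a j e j` (both series converging in `L²(ℝ/ℤ)`, which is the case
when `a` is square summable) which is not the zero element of `L²`, the function `log |g|` lies in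
`L^p(ℝ/ℤ)`.  This is a positive answer to Q2, with an exponent which is uniform in the coefficients.

Idea of the proof.  All estimates are made for Laurent polynomials `G` with half-lacunary negative
frequencies.  Let `F = {|G| ≤ exp (-τ)}` have measure `M`.

* Rotations of `(s, ..., s, G)` (the starting file for Q1) are refined to an `ℓ²` bound of a whole
  block of coefficients: if `F` fills the circle up to `1 / (2 (L + 1))`, seen from a point at
  height `h`, then `|G (- m j)| ≤ B ^ C exp (-(lam / 2) min τ (h m_j))`, and the frequencies with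
  `h m_j ≥ τ` have `ℓ²` norm at most `B ^ C exp (-(lam / 2) τ)` (`Tail`).
* Take the largest scale `Y` at which `F` has dense arcs, `h = Y / (2 (L + 1))`, and cut off the
  frequencies with `h m_j ≥ τ`. The truncation `U` extends to the annulus `1 - lam h / 8 ≤ |z| < 1`
  and is bounded there by a constant times its Poisson integral (`Bdd`); by Jensen's inequality it
  is small near each arc which carries a part of `F`, and by the two constants theorem, applied to a
  chain of discs, it is at most `exp (- c η² τ)` at height `lam h / 32` over each point around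
  which `F` has density `η` at scale `Y` (`Core`).
* As no arc at the scale `2 Y` is dense, a layer cake argument gives an `η` such that these points
  have measure at least `(1 + κ) η ^ (-ε) M` (`Cake`). So passing to the circle of radius
  `1 - lam h / 32` enlarges the small set, at the price of `τ' = c η² τ`. Induction gives
  `|G n| ≤ exp (- c M ^ a τ + C (1 / M) ^ a (log (‖G‖₁) + log (1 / M) + |n| + 1))` (`Step`, `Ind`).
* Hence `M ^ (2 a + 1) τ ≤ C`, the measure of `{|g| ≤ exp (-t)}` is at most `C t ^ (-1 / (2 a + 1))`
  (`Fin`).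
-/

open MeasureTheory Filter

namespace Pool.Agent.Results.MP_5bfbcb_an.LogIntegrability

open Pool.Agent.K9h98.HLp in
/-- For every Hadamard lacunary sequence of negative integers there is `p > 0` such that every
half-lacunary Fourier series `g = g₁ + g₂` in `L²(ℝ/ℤ)` with negative frequencies in this sequence
(and arbitrary nonnegative frequencies) which is not identically zero is nonzero almost everywhere
and has `log |g|` in `L^p`. -/
theorem result (n : ℕ → ℤ) (hneg : ∀ k, n k < 0)
    (hlac : 1 < liminf (fun k => (((n (k + 1) : ℝ) / (n k : ℝ) : ℝ) : EReal)) atTop) :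
    ∃ p : ℝ, 0 < p ∧ ∀ (a : ℤ → ℂ)
      (g₁ g₂ : Lp ℂ 2 (AddCircle.haarAddCircle : Measure (AddCircle (1 : ℝ)))),
      HasSum (fun k : ℕ => a (n k) • fourierLp 2 (n k)) g₁ →
      HasSum (fun j : ℕ => a (j : ℤ) • fourierLp 2 (j : ℤ)) g₂ →
      g₁ + g₂ ≠ 0 →
      (∀ᵐ θ ∂(AddCircle.haarAddCircle : Measure (AddCircle (1 : ℝ))),
        (g₁ + g₂ : Lp ℂ 2 AddCircle.haarAddCircle) θ ≠ 0) ∧
      Integrable (fun θ : AddCircle (1 : ℝ) =>
        |Real.log ‖(g₁ + g₂ : Lp ℂ 2 AddCircle.haarAddCircle) θ‖| ^ p) AddCircle.haarAddCircle ∧
      MemLp (fun θ : AddCircle (1 : ℝ) =>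
        Real.log ‖(g₁ + g₂ : Lp ℂ 2 AddCircle.haarAddCircle) θ‖) (ENNReal.ofReal p)
        AddCircle.haarAddCircle :=
  q2_of_fin (fun L m lam lac =>
    fin_all m (ind_all m (step_all lac (tail_all lac) dense_all fub_all avg_all cheb_all cake_all
      (bdd_all lac)
      (core_all near_all harn_all (bdd_all lac) small_all tc_all (chain_all tc_all) lac)) cheb_all))
    n hneg hlac

end Pool.Agent.Results.MP_5bfbcb_an.LogIntegrability
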